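import Pool.Agent.BS.Man

/-!
# Foliations of asymptotically flat ends by Bernoulli surfaces

Full answer to Q1 of MP_eb1919_gt: the end of an asymptotically flat 3-manifold of order
`q > 1/2` with integrable scalar curvature and nonzero ADM mass is foliated by Bernoulli surfaces
of spherical topology (no sign of the scalar curvature is needed).
-/

namespace Pool.Agent.Results.MP_eb1919_gt.BernoulliFoliation

open Pool.Agent.BS
open scoped ContDiff Manifold

theorem result {H : Type*} [TopologicalSpace H] {I : ModelWithCorners ℝ E3 H}
    {M : Type*} [TopologicalSpace M] [ChartedSpace H M] [IsManifold I ∞ M]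
    {q m : ℝ} (hq : 1 / 2 < q) (X : AFManifold I M q)
    (hs : ScalIntegrable X.gij) (hm : HasMass X.gij m) (hm0 : m ≠ 0) :
    ∃ (K : Set M) (R : ℝ) (F : OpenPartialHomeomorph E3 M), IsBernoulliFoliation X K R F :=
  bernoulli_foliation_manifold hq X hs hm hm0

end Pool.Agent.Results.MP_eb1919_gt.BernoulliFoliation
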